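import Mathlib

set_option autoImplicit false

/-!
# Euler product bound for nonnegative multiplicative functions

Task T0 of the project QT (`Pool.Agent.Y19.QT`).
-/

namespace Pool.Agent.Y705.QT0

open Nat Finset

/-- `ζ(s) ≤ 1 + 1 / (s - 1)` for real `s > 1` -/
theorem zeta_le {s : ℝ} (hs : 1 < s) : ∑' n : ℕ, (n : ℝ) ^ (-s) ≤ 1 + 1 / (s - 1) := by
  have hsum : Summable (fun n : ℕ => (n : ℝ) ^ (-s)) :=
    Real.summable_nat_rpow.mpr (by linarith)
  rw [hsum.tsum_eq_zero_add]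
  have h0 : ((0 : ℕ) : ℝ) ^ (-s) = 0 := by
    rw [Nat.cast_zero, Real.zero_rpow (by linarith)]
  rw [h0, zero_add]
  have h1 : ∀ n : ℕ, ((n + 1 : ℕ) : ℝ) ^ (-s) = 1 / ((n : ℝ) + 1) ^ s := by
    intro n
    rw [Real.rpow_neg (by positivity), one_div]
    push_cast
    rfl
  simp_rw [h1]
  have h2 := ZetaAsymptotics.zeta_limit_aux1 hs
  have h3 : 0 ≤ ZetaAsymptotics.termTSum s :=
    tsum_nonneg fun n => ZetaAsymptotics.term_nonneg _ _
  have h4 : 0 ≤ s * ZetaAsymptotics.termTSum s := mul_nonneg (by linarith) h3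
  linarith

theorem prod_le {s : ℝ} (hs : 1 < s) (N : ℕ) :
    ∏ p ∈ N.primesBelow, (1 - (p : ℝ) ^ (-s))⁻¹ ≤ 1 + 1 / (s - 1) := by
  set g : ℕ → ℝ := fun n => (n : ℝ) ^ (-s) with hg
  have hsum : Summable g := Real.summable_nat_rpow.mpr (by linarith)
  have hg0 : ∀ n, 0 ≤ g n := fun n => Real.rpow_nonneg (Nat.cast_nonneg n) _
  have hmul : ∀ {m n : ℕ}, Nat.Coprime m n → g (m * n) = g m * g n := by
    intro m n _
    simp only [hg, Nat.cast_mul]
    exact Real.mul_rpow (Nat.cast_nonneg m) (Nat.cast_nonneg n)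
  have hn : Summable (fun n => ‖g n‖) := by
    simpa [Real.norm_of_nonneg (hg0 _)] using hsum
  have h1 := EulerProduct.prod_primesBelow_tsum_eq_tsum_smoothNumbers (f := g)
    (by simp [hg]) hmul hn N
  have h2 : ∀ p ∈ N.primesBelow, ∑' n : ℕ, g (p ^ n) = (1 - (p : ℝ) ^ (-s))⁻¹ := by
    intro p hp
    have hpp := (Nat.mem_primesBelow.mp hp).2
    have hp1 : (1 : ℝ) < p := by exact_mod_cast hpp.one_lt
    have h3 : ∀ n : ℕ, g (p ^ n) = ((p : ℝ) ^ (-s)) ^ n := by
      intro n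
      simp only [hg, Nat.cast_pow]
      rw [← Real.rpow_natCast, ← Real.rpow_natCast, ← Real.rpow_mul (by positivity),
        ← Real.rpow_mul (by positivity), mul_comm]
    simp_rw [h3]
    exact tsum_geometric_of_lt_one (Real.rpow_nonneg (by positivity) _)
      (Real.rpow_lt_one_of_one_lt_of_neg hp1 (by linarith))
  rw [← Finset.prod_congr rfl h2, h1]
  refine le_trans ?_ (zeta_le hs)
  exact Summable.tsum_subtype_le g _ hg0 hsum

/-- T0: Euler product bound -/
theorem T0 (f : ℕ → ℝ) (A : ℕ) (s : ℝ) (hs : 1 < s) (h0 : ∀ n, 0 ≤ f n) (hz : f 0 = 0)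
    (h1 : f 1 = 1) (hm : ∀ m n : ℕ, m.Coprime n → f (m * n) = f m * f n)
    (hp : ∀ p : ℕ, p.Prime → Summable (fun k : ℕ => f (p ^ k)) ∧
      ∑' k : ℕ, f (p ^ k) ≤ ((1 - (p : ℝ) ^ (-s))⁻¹) ^ A) :
    Summable f ∧ ∑' n, f n ≤ (1 + 1 / (s - 1)) ^ A := by
  have key : ∀ N : ℕ, ∏ p ∈ N.primesBelow, ∑' k : ℕ, f (p ^ k) ≤ (1 + 1 / (s - 1)) ^ A := by
    intro N
    have h2 : ∏ p ∈ N.primesBelow, ∑' k : ℕ, f (p ^ k) ≤
        ∏ p ∈ N.primesBelow, ((1 - (p : ℝ) ^ (-s))⁻¹) ^ A := by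
      apply Finset.prod_le_prod
      · intro p _
        exact tsum_nonneg fun k => h0 _
      · intro p hpN
        exact (hp p (Nat.mem_primesBelow.mp hpN).2).2
    refine h2.trans ?_
    rw [Finset.prod_pow]
    apply pow_le_pow_left₀ _ (prod_le hs N)
    apply Finset.prod_nonneg
    intro p hpN
    have hpp := (Nat.mem_primesBelow.mp hpN).2
    have hp1 : (1 : ℝ) < p := by exact_mod_cast hpp.one_lt
    have h3 : (p : ℝ) ^ (-s) < 1 := Real.rpow_lt_one_of_one_lt_of_neg hp1 (by linarith)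
    exact inv_nonneg.mpr (by linarith)
  have hfin : ∀ t : Finset ℕ, ∑ n ∈ t, f n ≤ (1 + 1 / (s - 1)) ^ A := by
    intro t
    classical
    set N := t.sup id + 1 with hN
    obtain ⟨hs1, hs2⟩ := EulerProduct.summable_and_hasSum_smoothNumbers_prod_primesBelow_tsum
      (f := f) h1 (fun {m n} h => hm m n h)
      (fun {p} hpp => by simpa [Real.norm_of_nonneg (h0 _)] using (hp p hpp).1) N
    have h2 : ∑ n ∈ t, f n = ∑ n ∈ t.filter (· ∈ N.smoothNumbers), f n := by
      symm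
      apply Finset.sum_filter_of_ne
      intro n hn hne
      have hn0 : n ≠ 0 := by
        rintro rfl
        exact hne hz
      apply Nat.mem_smoothNumbers_of_lt (Nat.pos_of_ne_zero hn0)
      have := Finset.le_sup (f := id) hn
      simp only [id] at this
      omega
    rw [h2, ← Finset.sum_subtype_eq_sum_filter]
    refine le_trans ?_ (key N)
    exact sum_le_hasSum _ (fun i _ => h0 _) hs2
  have hsum : Summable f := summable_of_sum_le h0 hfin
  exact ⟨hsum, hsum.tsum_le_of_sum_le hfin⟩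

end Pool.Agent.Y705.QT0
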