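import Mathlib
import Pool.Agent.Y705.QT.LS

set_option autoImplicit false

/-!
# T9a: the squarefree part of the `L`-function (project QT)

The expression of `ell` as a Dirichlet series for `Re s > 2` (T8a (ii)) is a hypothesis.
-/

namespace Pool.Agent.Y705.QT

open Pool.Agent.Y19.QT Complex
open Pool.Agent.H306R2.RZ (js)

variable {Q : ℕ} {lam : ℕ → ℝ}

/-- `flat lam` times the character -/
noncomputable def hF (lam : ℕ → ℝ) (d : ℤ) (n : ℕ) : ℂ := ((flat lam n * js d n : ℝ) : ℂ)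

/-- `lam` times the character -/
noncomputable def hL (lam : ℕ → ℝ) (d : ℤ) (n : ℕ) : ℂ := ((lam n * js d n : ℝ) : ℂ)

/-- `v` times the character -/
noncomputable def hV (Q : ℕ) (lam : ℕ → ℝ) (d : ℤ) (n : ℕ) : ℂ :=
  ((fp (vw Q lam) n * js d n : ℝ) : ℂ)

lemma hF_sq (H : Hecke Q lam) (d : ℤ) : SqMul (hF lam d) where
  zero := by simp [hF, flat_zero]
  mul := by
    intro m n hmn
    unfold hF
    rcases Nat.eq_zero_or_pos m with rfl | hm
    · simp [flat_zero]
    rcases Nat.eq_zero_or_pos n with rfl | hn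
    · simp [flat_zero]
    rw [flat_mul H hmn, js_mul d hm.ne' hn.ne']
    push_cast
    ring
  sq := by
    intro p n hp hpn
    unfold hF
    rw [flat_of_sq hp hpn]
    simp

lemma hL_conv_hV (H : Hecke Q lam) (d : ℤ) : LSeries.convolution (hL lam d) (hV Q lam d) = hF lam d := by
  funext n
  rw [LSeries.convolution_def]
  show ∑ p ∈ n.divisorsAntidiagonal, hL lam d p.1 * hV Q lam d p.2 = hF lam d n
  unfold hF
  rw [← lam_conv_v H n, Finset.sum_mul, ofReal_sum]
  refine Finset.sum_congr rfl fun x hx => ?_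
  obtain ⟨h1, h2⟩ := Nat.mem_divisorsAntidiagonal.mp hx
  have h3 : x.1 ≠ 0 := fun h => h2 (by rw [← h1, h, zero_mul])
  have h4 : x.2 ≠ 0 := fun h => h2 (by rw [← h1, h, mul_zero])
  unfold hL hV
  rw [← h1, js_mul d h3 h4]
  push_cast
  ring

lemma hL_summable (H : Hecke Q lam) (d : ℤ) (s : ℂ) (hs : 2 < s.re) :
    LSeriesSummable (hL lam d) s := by
  refine LSeriesSummable_of_le_const_mul_rpow (x := 2) hs ⟨1, fun n _ => ?_⟩
  unfold hL
  rw [norm_real, Real.norm_eq_abs, abs_mul]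
  have h1 := lam_le H n
  have h2 := js_abs_le d n
  calc |lam n| * |js d n| ≤ n * 1 := by gcongr
    _ = 1 * (n : ℝ) ^ ((2 : ℝ) - 1) := by
      rw [show (2 : ℝ) - 1 = 1 by norm_num, Real.rpow_one]
      ring

lemma hF_summable (H : Hecke Q lam) (d : ℤ) (s : ℂ) (hs : 2 < s.re) :
    LSeriesSummable (hF lam d) s := by
  have h := hL_summable H d s hs
  unfold LSeriesSummable at h ⊢
  rw [← summable_norm_iff] at h ⊢
  refine Summable.of_nonneg_of_le (fun n => norm_nonneg _)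
    (fun n => LSeries.norm_term_le s ?_) h
  unfold hF hL
  rw [norm_real, norm_real, Real.norm_eq_abs, Real.norm_eq_abs, abs_mul, abs_mul]
  exact mul_le_mul_of_nonneg_right (flat_abs_le n) (abs_nonneg _)

lemma hV_bound (H : Hecke Q lam) (d : ℤ) (σ : ℝ) (h1 : 1 / 2 < σ) (h2 : σ ≤ 1) (s : ℂ)
    (hs : σ ≤ s.re) :
    LSeriesSummable (hV Q lam d) s ∧ ‖LSeries (hV Q lam d) s‖ ≤ ((σ - 1 / 2)⁻¹) ^ 5 := by
  obtain ⟨h3, h4⟩ := v_sum H σ h1 h2
  obtain ⟨h5, h6⟩ := ls_bound (hV Q lam d) (fun n => |fp (vw Q lam) n|) σ (fun n => abs_nonneg _)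
    h3 (fun n => by
      unfold hV
      rw [norm_real, Real.norm_eq_abs, abs_mul]
      exact mul_le_of_le_one_right (abs_nonneg _) (js_abs_le d n)) s hs
  exact ⟨h5, h6.trans h4⟩

lemma hE_bound (e : ℕ → ℝ) (c : ℝ)
    (he : Summable (fun a : ℕ => |e a| * (a : ℝ) ^ (-(1 / 4) : ℝ)) ∧
      ∑' a : ℕ, |e a| * (a : ℝ) ^ (-(1 / 4) : ℝ) ≤ c) (s : ℂ) (hs : 1 / 4 ≤ s.re) :
    LSeriesSummable (fun n => (e n : ℂ)) s ∧ ‖LSeries (fun n => (e n : ℂ)) s‖ ≤ c := by
  obtain ⟨h5, h6⟩ := ls_bound (fun n => (e n : ℂ)) (fun n => |e n|) (1 / 4)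
    (fun n => abs_nonneg _) he.1 (fun n => by rw [norm_real, Real.norm_eq_abs]) s hs
  exact ⟨h5, h6.trans he.2⟩

lemma factor_bound (H : Hecke Q lam) (d : ℤ) {p : ℕ} (hp : p.Prime) (s : ℂ) (hs : 1 / 2 < s.re) :
    ‖hF lam d p * (p : ℂ) ^ (-s)‖ ≤ 1 / 2 := by
  unfold hF
  by_cases hQ : p ∣ Q
  · have h1 := H.bad p 0 hp hQ
    rw [zero_add, pow_one] at h1
    rw [flat_prime hp, h1]
    simp
  · have hp17 : (17 : ℝ) ≤ p := by exact_mod_cast not_dvd_big H hp hQ
    rw [flat_prime hp, norm_mul, norm_real, Real.norm_eq_abs, abs_mul,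
      norm_natCast_cpow_of_pos hp.pos, neg_re]
    have h2 : (p : ℝ) ^ (-s.re) ≤ 1 / 4 := by
      calc (p : ℝ) ^ (-s.re) ≤ (p : ℝ) ^ (-(1 / 2) : ℝ) :=
            Real.rpow_le_rpow_of_exponent_le (by linarith) (by linarith)
        _ ≤ (16 : ℝ) ^ (-(1 / 2) : ℝ) :=
            Real.rpow_le_rpow_of_nonpos (by norm_num) (by linarith) (by norm_num)
        _ = 1 / 4 := by
            rw [show (16 : ℝ) = 4 ^ (2 : ℝ) by norm_num, ← Real.rpow_mul (by norm_num)]
            norm_num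
    have h3 : |lam p| * |js d p| ≤ 2 * 1 := by
      have := H.bound p hp
      have := js_abs_le d p
      gcongr
    have h4 : 0 ≤ (p : ℝ) ^ (-s.re) := Real.rpow_nonneg (by positivity) _
    calc |lam p| * |js d p| * (p : ℝ) ^ (-s.re) ≤ 2 * 1 * (1 / 4) := by gcongr
      _ = 1 / 2 := by norm_num

lemma one_add_norm {z : ℂ} (hz : ‖z‖ ≤ 1 / 2) : 1 + z ≠ 0 ∧ ‖(1 + z)⁻¹‖ ≤ 2 := by
  have h1 : 1 / 2 ≤ ‖1 + z‖ := by
    have h2 : ‖(1 : ℂ)‖ ≤ ‖1 + z‖ + ‖z‖ := by
      calc ‖(1 : ℂ)‖ = ‖(1 + z) - z‖ := by rw [add_sub_cancel_right]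
        _ ≤ ‖1 + z‖ + ‖z‖ := norm_sub_le _ _
    rw [norm_one] at h2
    linarith
  constructor
  · intro h
    rw [h, norm_zero] at h1
    linarith
  · rw [norm_inv, inv_le_comm₀ (by linarith) (by norm_num)]
    linarith

/-- T9a: the squarefree part of the `L`-function -/
theorem T9a (T : Twists Q lam)
    (hell : ∀ d : ℤ, Squarefree d → ∀ s : ℂ, 2 < s.re →
      T.ell d s = ∑' n : ℕ, (T.cf d n : ℂ) * (n : ℂ) ^ (-s)) :
    ∃ (C : ℝ) (A : ℕ), 0 < C ∧
    ∀ (d : ℤ) (B : ℕ), Squarefree d → 0 < B → ∃ U : ℂ → ℂ,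
      DifferentiableOn ℂ U {s | 1 / 2 < s.re} ∧
      (∀ (σ : ℝ) (s : ℂ), 1 / 2 < σ → σ ≤ 1 → σ ≤ s.re →
        ‖U s‖ ≤ C * 2 ^ B.primeFactors.card * ((σ - 1 / 2)⁻¹) ^ A) ∧
      ∀ s : ℂ, 2 < s.re → ∑' n : ℕ, (cof lam d B n : ℂ) * (n : ℂ) ^ (-s) = T.ell d s * U s := by
  have H := T.hecke
  have hc : 0 < T.c := lt_of_lt_of_le one_pos T.one_le_c
  refine ⟨T.c, 5, hc, ?_⟩
  intro d B hd hB
  set S := B.primeFactors with hS
  have hSp : ∀ q ∈ S, q.Prime := fun q hq => Nat.prime_of_mem_primeFactors hq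
  set U : ℂ → ℂ := fun s => LSeries (fun n => (T.e' d n : ℂ)) s * LSeries (hV Q lam d) s *
    ∏ p ∈ S, (1 + hF lam d p * (p : ℂ) ^ (-s))⁻¹ with hU
  refine ⟨U, ?_, ?_, ?_⟩
  · refine DifferentiableOn.mul (DifferentiableOn.mul ?_ ?_) ?_
    · refine (ls_diff _ (1 / 4) fun y hy => (hE_bound _ _ (T.e'_sum d hd) (y : ℂ) ?_).1).mono ?_
      · rw [ofReal_re]
        exact hy.le
      · intro s hs
        simp only [Set.mem_ofPred_eq] at hs ⊢
        linarith
    · refine ls_diff _ (1 / 2) fun y hy => ?_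
      have h1 : 1 / 2 < min y 1 := lt_min hy (by norm_num)
      exact (hV_bound H d (min y 1) h1 (min_le_right _ _) (y : ℂ) (by
        rw [ofReal_re]; exact min_le_left _ _)).1
    · apply DifferentiableOn.fun_finsetProd
      intro p hp
      have hpp := hSp p hp
      refine DifferentiableOn.inv ?_ ?_
      · apply DifferentiableOn.const_add
        apply DifferentiableOn.const_mul
        intro s _
        have h2 : DifferentiableAt ℂ (fun s : ℂ => (p : ℂ) ^ (-s)) s :=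
          (differentiableAt_id.neg).const_cpow (Or.inl (by exact_mod_cast hpp.ne_zero))
        exact h2.differentiableWithinAt
      · intro s hs
        exact (one_add_norm (factor_bound H d hpp s hs)).1
  · intro σ s h1 h2 hs
    rw [hU]
    simp only [norm_mul, norm_prod]
    have e1 := (hE_bound _ _ (T.e'_sum d hd) s (by linarith)).2
    have e2 := (hV_bound H d σ h1 h2 s hs).2
    have e3 : ∏ p ∈ S, ‖(1 + hF lam d p * (p : ℂ) ^ (-s))⁻¹‖ ≤ 2 ^ S.card := by
      rw [← Finset.prod_const]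
      apply Finset.prod_le_prod
      · intro p _
        exact norm_nonneg _
      · intro p hp
        exact (one_add_norm (factor_bound H d (hSp p hp) s (by linarith))).2
    have e4 : 0 ≤ ((σ - 1 / 2)⁻¹) ^ 5 := by
      have : 0 < σ - 1 / 2 := by linarith
      positivity
    calc ‖LSeries (fun n => (T.e' d n : ℂ)) s‖ * ‖LSeries (hV Q lam d) s‖ *
          ∏ p ∈ S, ‖(1 + hF lam d p * (p : ℂ) ^ (-s))⁻¹‖
        ≤ T.c * ((σ - 1 / 2)⁻¹) ^ 5 * 2 ^ S.card := by
          apply mul_le_mul (mul_le_mul e1 e2 (norm_nonneg _) hc.le) e3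
          · exact Finset.prod_nonneg fun p _ => norm_nonneg _
          · exact mul_nonneg hc.le e4
      _ = T.c * 2 ^ S.card * ((σ - 1 / 2)⁻¹) ^ 5 := by ring
  · intro s hs
    have s1 := hL_summable H d s hs
    have s2 := (hV_bound H d 1 (by norm_num) le_rfl s (by linarith)).1
    have s3 := (hE_bound _ _ (T.e_sum d hd) s (by linarith)).1
    have s4 := (hE_bound _ _ (T.e'_sum d hd) s (by linarith)).1
    -- the series of `cof`
    have c1 : (fun n : ℕ => (cof lam d B n : ℂ)) = rs (hF lam d) S := by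
      funext n
      unfold cof rs hF
      rcases Nat.eq_zero_or_pos n with rfl | hn
      · simp [flat_zero]
      have h3 : n.Coprime B ↔ ∀ p ∈ S, ¬ p ∣ n := by
        constructor
        · intro h p hp hpn
          have hpB : p ∣ B := Nat.dvd_of_mem_primeFactors hp
          have h4 : p ∣ 1 := by
            have := Nat.dvd_gcd hpn hpB
            rwa [h.gcd_eq_one] at this
          exact (hSp p hp).one_lt.ne' (Nat.dvd_one.mp h4)
        · intro h
          apply Nat.coprime_of_dvd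
          intro p hp hpn hpB
          exact h p (Nat.mem_primeFactors.mpr ⟨hp, hpB, hB.ne'⟩) hpn
      by_cases h4 : n.Coprime B
      · rw [if_pos h4, if_pos (h3.mp h4)]
      · rw [if_neg h4, if_neg (fun h => h4 (h3.mpr h)), ofReal_zero]
    have c2 : ∑' n : ℕ, (cof lam d B n : ℂ) * (n : ℂ) ^ (-s) = LSeries (rs (hF lam d) S) s := by
      rw [← c1]
      apply tsum_eq_ls
      simp [cof, flat_zero]
    -- the series of `ell`
    have c3 : (fun n : ℕ => (T.cf d n : ℂ)) =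
        LSeries.convolution (fun n => (T.e d n : ℂ)) (hL lam d) := by
      rw [LSeries.convolution_def]
      funext n
      unfold Twists.cf hL
      push_cast
      rfl
    have c4 : T.ell d s = LSeries (fun n => (T.e d n : ℂ)) s * LSeries (hL lam d) s := by
      rw [hell d hd s hs, tsum_eq_ls (fun n => (T.cf d n : ℂ)) (by simp [Twists.cf]) s, c3,
        LSeries_convolution' s3 s1]
    have c5 : LSeries (fun n => (T.e d n : ℂ)) s * LSeries (fun n => (T.e' d n : ℂ)) s = 1 := by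
      rw [← LSeries_convolution' s3 s4]
      have h5 : LSeries (LSeries.convolution (fun n => (T.e d n : ℂ)) (fun n => (T.e' d n : ℂ))) s =
          LSeries LSeries.delta s := by
        apply LSeries_congr
        intro n hn
        rw [LSeries.convolution_def]
        show ∑ p ∈ n.divisorsAntidiagonal, (T.e d p.1 : ℂ) * (T.e' d p.2 : ℂ) = LSeries.delta n
        have h6 := T.e_inv d hd n (Nat.one_le_iff_ne_zero.mpr hn)
        have h7 : ((∑ x ∈ n.divisorsAntidiagonal, T.e d x.1 * T.e' d x.2 : ℝ) : ℂ) =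
            ((if n = 1 then 1 else 0 : ℝ) : ℂ) := by rw [h6]
        rw [ofReal_sum] at h7
        simp only [ofReal_mul] at h7
        rw [h7, LSeries.delta]
        split_ifs <;> simp
      rw [h5, LSeries_delta]
      rfl
    have c6 : LSeries (hL lam d) s * LSeries (hV Q lam d) s = LSeries (hF lam d) s := by
      rw [← LSeries_convolution' s1 s2, hL_conv_hV H d]
    have c7 := rs_prod (hF lam d) (hF_sq H d) s (hF_summable H d s hs) S hSp
    have c8 : ∏ p ∈ S, (1 + hF lam d p * (p : ℂ) ^ (-s)) *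
        (1 + hF lam d p * (p : ℂ) ^ (-s))⁻¹ = 1 := by
      apply Finset.prod_eq_one
      intro p hp
      exact mul_inv_cancel₀ (one_add_norm (factor_bound H d (hSp p hp) s (by linarith))).1
    rw [Finset.prod_mul_distrib] at c8
    rw [c2, c4, hU]
    simp only
    calc LSeries (rs (hF lam d) S) s
        = LSeries (rs (hF lam d) S) s * ((∏ p ∈ S, (1 + hF lam d p * (p : ℂ) ^ (-s))) *
            ∏ p ∈ S, (1 + hF lam d p * (p : ℂ) ^ (-s))⁻¹) := by rw [c8, mul_one]
      _ = LSeries (hF lam d) s * ∏ p ∈ S, (1 + hF lam d p * (p : ℂ) ^ (-s))⁻¹ := by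
            rw [← mul_assoc, ← c7]
      _ = (LSeries (fun n => (T.e d n : ℂ)) s * LSeries (fun n => (T.e' d n : ℂ)) s) *
            (LSeries (hL lam d) s * LSeries (hV Q lam d) s) *
            ∏ p ∈ S, (1 + hF lam d p * (p : ℂ) ^ (-s))⁻¹ := by rw [c5, one_mul, c6]
      _ = LSeries (fun n => (T.e d n : ℂ)) s * LSeries (hL lam d) s *
            (LSeries (fun n => (T.e' d n : ℂ)) s * LSeries (hV Q lam d) s *
            ∏ p ∈ S, (1 + hF lam d p * (p : ℂ) ^ (-s))⁻¹) := by ring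

end Pool.Agent.Y705.QT
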