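import Mathlib
import Pool.Agent.Y705.QT9a
import Pool.Agent.Y705.QT.Pts

set_option autoImplicit false

/-!
# T13: orders of vanishing (project QT)

The entirety of `ell` and its expression as a Dirichlet series for `Re s > 2` (T8a (i), (ii)) are a
hypothesis.
-/

namespace Pool.Agent.Y705.QT

open Pool.Agent.Y19.QT Complex
open Pool.Agent.H306R2.RZ (js)

variable {Q : ℕ} {lam : ℕ → ℝ}

/-! ### the local factors -/

lemma local_sum (H : Hecke Q lam) {p : ℕ} (hp : p.Prime) (hQ : ¬ p ∣ Q) (x : ℂ) (hx : ‖x‖ < 1) :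
    ∑' k : ℕ, (lam (p ^ k) : ℂ) * x ^ k = (1 - lam p * x + x ^ 2)⁻¹ := by
  have hs : Summable (fun k : ℕ => (lam (p ^ k) : ℂ) * x ^ k) := by
    have h1 : Summable (fun k : ℕ => ((k : ℝ) ^ 1 * ‖x‖ ^ k) + ‖x‖ ^ k) :=
      (summable_pow_mul_geometric_of_norm_lt_one 1 (by rwa [norm_norm])).add
        (summable_geometric_of_norm_lt_one (by rwa [norm_norm]))
    refine Summable.of_norm_bounded h1 fun k => ?_
    rw [norm_mul, norm_real, Real.norm_eq_abs, norm_pow]
    have h2 := lam_prime_pow_le H hp k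
    calc |lam (p ^ k)| * ‖x‖ ^ k ≤ (k + 1) * ‖x‖ ^ k := by gcongr
      _ = _ := by ring
  set S := ∑' k : ℕ, (lam (p ^ k) : ℂ) * x ^ k with hS
  have hs1 : Summable (fun k : ℕ => (lam (p ^ (k + 1)) : ℂ) * x ^ (k + 1)) :=
    (summable_nat_add_iff 1).mpr hs
  have e1 : S = 1 + ∑' k : ℕ, (lam (p ^ (k + 1)) : ℂ) * x ^ (k + 1) := by
    rw [hS, hs.tsum_eq_zero_add]
    simp [H.one]
  have e2 : ∑' k : ℕ, (lam (p ^ (k + 1)) : ℂ) * x ^ (k + 1) = lam p * x +
      ∑' k : ℕ, (lam (p ^ (k + 2)) : ℂ) * x ^ (k + 2) := by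
    rw [hs1.tsum_eq_zero_add]
    simp
  have e3 : ∑' k : ℕ, (lam (p ^ (k + 2)) : ℂ) * x ^ (k + 2) =
      lam p * x * (∑' k : ℕ, (lam (p ^ (k + 1)) : ℂ) * x ^ (k + 1)) - x ^ 2 * S := by
    rw [hS, ← tsum_mul_left, ← tsum_mul_left, ← Summable.tsum_sub (hs1.mul_left _)
      (hs.mul_left _)]
    refine tsum_congr fun k => ?_
    rw [H.hrec p k hp hQ]
    push_cast
    ring
  have e4 : S * (1 - lam p * x + x ^ 2) = 1 := by
    have e5 : ∑' k : ℕ, (lam (p ^ (k + 1)) : ℂ) * x ^ (k + 1) = S - 1 := by rw [e1]; ring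
    rw [e3, e5] at e2
    linear_combination e2
  exact eq_inv_of_mul_eq_one_left e4

/-- the local factor of the `d`-th twist -/
noncomputable def lf (Q : ℕ) (lam : ℕ → ℝ) (d : ℤ) (s : ℂ) (p : ℕ) : ℂ :=
  if p.Prime ∧ ¬ p ∣ Q then
    (1 - lam p * (js d p * (p : ℂ) ^ (-s)) + (js d p * (p : ℂ) ^ (-s)) ^ 2)⁻¹ else 1

lemma js_pow (d : ℤ) {p : ℕ} (hp : p.Prime) (k : ℕ) : js d (p ^ k) = js d p ^ k := by
  induction k with
  | zero => rw [pow_zero, pow_zero, js_one]
  | succ k ih => rw [pow_succ, js_mul d (pow_ne_zero _ hp.ne_zero) hp.ne_zero, ih, pow_succ]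

/-- the Euler product of `∑ lam(n) χ_d(n) n^{-s}` -/
lemma hL_euler (H : Hecke Q lam) (d : ℤ) (s : ℂ) (hs : 2 < s.re) :
    HasProd (lf Q lam d s) (LSeries (hL lam d) s) := by
  have h1 := EulerProduct.eulerProduct_hasProd_mulIndicator
    (f := LSeries.term (hL lam d) s) (by
      rw [LSeries.term_of_ne_zero one_ne_zero]
      simp [hL, H.one, js_one]) (by
      intro m n hmn
      rcases Nat.eq_zero_or_pos m with rfl | hm
      · simp
      rcases Nat.eq_zero_or_pos n with rfl | hn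
      · simp
      rw [LSeries.term_of_ne_zero (mul_ne_zero hm.ne' hn.ne'), LSeries.term_of_ne_zero hm.ne',
        LSeries.term_of_ne_zero hn.ne']
      unfold hL
      rw [H.mul m n hmn, js_mul d hm.ne' hn.ne', Nat.cast_mul, natCast_mul_natCast_cpow]
      push_cast
      rw [div_mul_div_comm]
      congr 1
      ring) (hL_summable H d s hs).norm (LSeries.term_zero _ _)
  convert h1 using 1
  swap
  · rfl
  funext p
  unfold lf
  by_cases hp : p.Prime
  · rw [Set.mulIndicator_of_mem (show p ∈ {p | Nat.Prime p} from hp)]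
    have hpow : ∀ k : ℕ, LSeries.term (hL lam d) s (p ^ k) =
        (lam (p ^ k) : ℂ) * (js d p * (p : ℂ) ^ (-s)) ^ k := by
      intro k
      rw [LSeries.term_of_ne_zero (pow_ne_zero _ hp.ne_zero)]
      unfold hL
      rw [js_pow d hp, Nat.cast_pow, ← Complex.natCast_cpow_natCast_mul, mul_comm (k : ℂ) s,
        Complex.cpow_mul_nat, div_eq_mul_inv, ← inv_pow, ← Complex.cpow_neg, mul_pow]
      push_cast
      ring
    simp only [hpow]
    by_cases hQ : p ∣ Q
    · rw [if_neg (by tauto), tsum_eq_single 0]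
      · simp [H.one]
      · intro k hk
        obtain ⟨j, rfl⟩ := Nat.exists_eq_succ_of_ne_zero hk
        rw [H.bad p j hp hQ]
        simp
    · rw [if_pos ⟨hp, hQ⟩]
      refine (local_sum H hp hQ _ ?_).symm
      rw [norm_mul, norm_real, Real.norm_eq_abs, norm_natCast_cpow_of_pos hp.pos, neg_re]
      have hp1 : (1 : ℝ) < p := by exact_mod_cast hp.one_lt
      have h2 : (p : ℝ) ^ (-s.re) < 1 := Real.rpow_lt_one_of_one_lt_of_neg hp1 (by linarith)
      have h3 : 0 ≤ (p : ℝ) ^ (-s.re) := Real.rpow_nonneg (by positivity) _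
      calc |js d p| * (p : ℝ) ^ (-s.re) ≤ 1 * (p : ℝ) ^ (-s.re) := by
            gcongr
            exact js_abs_le d p
        _ < 1 := by rw [one_mul]; exact h2
  · rw [Set.mulIndicator_of_notMem (show p ∉ {p | Nat.Prime p} from hp), if_neg (by tauto)]

/-- the factors of the elliptic curve -/
noncomputable def pf (a b : ℤ) (s : ℂ) (p : ℕ) : ℂ :=
  1 - (ap a b p : ℂ) * (p : ℂ) ^ (-s) + (p : ℂ) ^ (1 - 2 * s)

lemma pf_diff (a b : ℤ) {p : ℕ} (hp : p.Prime) : Differentiable ℂ (fun s => pf a b s p) := by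
  unfold pf
  have hp0 : (p : ℂ) ≠ 0 := by exact_mod_cast hp.ne_zero
  refine Differentiable.add (Differentiable.const_sub (Differentiable.const_mul ?_ _) _) ?_
  · intro s
    exact (differentiableAt_id.neg).const_cpow (Or.inl hp0)
  · intro s
    exact (((differentiableAt_id.const_mul 2).const_sub 1)).const_cpow (Or.inl hp0)

lemma pf_one (a b : ℤ) {p : ℕ} (hp : p.Prime) : pf a b 1 p ≠ 0 := by
  unfold pf
  have hp0 : (p : ℂ) ≠ 0 := by exact_mod_cast hp.ne_zero
  have e : (1 : ℂ) - (ap a b p : ℂ) * (p : ℂ) ^ (-1 : ℂ) + (p : ℂ) ^ ((1 : ℂ) - 2 * 1) =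
      (((p : ℤ) - ap a b p + 1 : ℤ) : ℂ) / p := by
    rw [show (1 : ℂ) - 2 * 1 = -1 by ring, Complex.cpow_neg_one]
    push_cast
    field_simp
  rw [e]
  have h1 := one_sub_ap_pos a b p
  have h2 : (((p : ℤ) - ap a b p + 1 : ℤ) : ℂ) ≠ 0 := by exact_mod_cast h1.ne'
  exact div_ne_zero h2 hp0

lemma ap_abs (a b : ℤ) {p : ℕ} (hp : p.Prime) : |(ap a b p : ℝ)| ≤ (p : ℝ) ^ 2 := by
  have : NeZero p := ⟨hp.ne_zero⟩
  have h1 : Nat.card {x : ZMod p × ZMod p //
      x.2 ^ 2 = x.1 ^ 3 + (a : ZMod p) * x.1 + (b : ZMod p)} ≤ p ^ 2 := by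
    have h2 := Nat.card_le_card_of_injective (fun x : {x : ZMod p × ZMod p //
      x.2 ^ 2 = x.1 ^ 3 + (a : ZMod p) * x.1 + (b : ZMod p)} => x.1) Subtype.val_injective
    rwa [Nat.card_prod, Nat.card_zmod, ← sq] at h2
  have hp1 : 1 ≤ p := hp.pos
  have h3 : |ap a b p| ≤ (p : ℤ) ^ 2 := by
    unfold ap
    rw [abs_le]
    have h4 : ((Nat.card {x : ZMod p × ZMod p //
      x.2 ^ 2 = x.1 ^ 3 + (a : ZMod p) * x.1 + (b : ZMod p)} : ℕ) : ℤ) ≤ (p : ℤ) ^ 2 := by
      exact_mod_cast h1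
    have h5 : (0 : ℤ) ≤ ((Nat.card {x : ZMod p × ZMod p //
      x.2 ^ 2 = x.1 ^ 3 + (a : ZMod p) * x.1 + (b : ZMod p)} : ℕ) : ℤ) := by positivity
    have h6 : (1 : ℤ) ≤ p := by exact_mod_cast hp1
    constructor <;> nlinarith
  exact_mod_cast h3

lemma pf_big (a b : ℤ) {p : ℕ} (hp : p.Prime) (s : ℂ) (hs : 10 < s.re) : pf a b s p ≠ 0 := by
  have hp1 : (1 : ℝ) < p := by exact_mod_cast hp.one_lt
  have hp2 : (2 : ℝ) ≤ p := by exact_mod_cast hp.two_le
  have hb1 : ‖(ap a b p : ℂ) * (p : ℂ) ^ (-s)‖ ≤ 1 / 4 := by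
    rw [norm_mul, norm_intCast, norm_natCast_cpow_of_pos hp.pos, neg_re]
    have h1 : (p : ℝ) ^ (-s.re) ≤ (p : ℝ) ^ (-(4 : ℝ)) :=
      Real.rpow_le_rpow_of_exponent_le hp1.le (by linarith)
    have h2 := ap_abs a b hp
    calc |(ap a b p : ℝ)| * (p : ℝ) ^ (-s.re) ≤ (p : ℝ) ^ 2 * (p : ℝ) ^ (-(4 : ℝ)) := by gcongr
      _ = ((p : ℝ) ^ 2)⁻¹ := by
        rw [Real.rpow_neg (by positivity), show (4 : ℝ) = ((4 : ℕ) : ℝ) by norm_num,
          Real.rpow_natCast]
        field_simp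
      _ ≤ 1 / 4 := by
        rw [one_div]
        apply inv_anti₀ (by norm_num)
        nlinarith
  have hb2 : ‖(p : ℂ) ^ (1 - 2 * s)‖ ≤ 1 / 4 := by
    rw [norm_natCast_cpow_of_pos hp.pos]
    have h0 : (1 - 2 * s).re = 1 - 2 * s.re := by simp
    rw [h0]
    calc (p : ℝ) ^ (1 - 2 * s.re) ≤ (p : ℝ) ^ (-(2 : ℝ)) :=
          Real.rpow_le_rpow_of_exponent_le hp1.le (by linarith)
      _ = ((p : ℝ) ^ 2)⁻¹ := by
        rw [Real.rpow_neg (by positivity), show (2 : ℝ) = ((2 : ℕ) : ℝ) by norm_num,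
          Real.rpow_natCast]
      _ ≤ 1 / 4 := by
        rw [one_div]
        apply inv_anti₀ (by norm_num)
        nlinarith
  intro h
  have h3 : (1 : ℂ) = (ap a b p : ℂ) * (p : ℂ) ^ (-s) - (p : ℂ) ^ (1 - 2 * s) := by
    unfold pf at h
    linear_combination h
  have h4 : ‖(1 : ℂ)‖ ≤ 1 / 4 + 1 / 4 := by
    rw [h3]
    exact (norm_sub_le _ _).trans (add_le_add hb1 hb2)
  rw [norm_one] at h4
  norm_num at h4

/-- T13: orders of vanishing -/
theorem T13 (a b : ℤ) (_hab : 4 * a ^ 3 + 27 * b ^ 2 ≠ 0) (Q : ℕ) (lam : ℕ → ℝ) (T : Twists Q lam)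
    (hell : ∀ d : ℤ, Squarefree d → Differentiable ℂ (T.ell d) ∧
      ∀ s : ℂ, 2 < s.re → T.ell d s = ∑' n : ℕ, (T.cf d n : ℂ) * (n : ℂ) ^ (-s))
    (hQ : ∀ p : ℕ, p.Prime → (p : ℤ) ∣ 2 * (4 * a ^ 3 + 27 * b ^ 2) → p ∣ Q)
    (hlam : ∀ p : ℕ, p.Prime → ¬ p ∣ Q → lam p = ap a b p / Real.sqrt p)
    (d : ℤ) (hd : Squarefree d) (F : ℂ → ℂ) (hF : IsLFun (a * d ^ 2) (b * d ^ 3) F) :
    analyticOrderAt F 1 = analyticOrderAt (T.ell d) (1 / 2) := by
  classical
  have H := T.hecke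
  obtain ⟨hFd, hFp⟩ := hF
  obtain ⟨hed, hes⟩ := hell d hd
  set a' : ℤ := a * d ^ 2 with ha'
  set b' : ℤ := b * d ^ 3 with hb'
  set D' : ℤ := 2 * (-4 * a' ^ 3 - 27 * b' ^ 2) with hD'
  have hDD : D' = -(2 * (4 * a ^ 3 + 27 * b ^ 2)) * d ^ 6 := by rw [hD', ha', hb']; ring
  set S : Finset ℕ := Q.primeFactors.filter (fun p => ¬ (p : ℤ) ∣ D') with hS
  have hSp : ∀ q ∈ S, q.Prime := fun q hq => Nat.prime_of_mem_primeFactors (Finset.mem_filter.mp hq).1
  -- the Euler product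
  have key : ∀ s : ℂ, 10 < s.re → F (s + 1 / 2) * ∏ p ∈ S, pf a' b' (s + 1 / 2) p =
      LSeries (hL lam d) s := by
    intro s hs
    have h1 := hFp (s + 1 / 2) (by
      have : (s + 1 / 2).re = s.re + 1 / 2 := by simp
      rw [this]; linarith)
    have h2 := hL_euler H d s (by linarith)
    have h3 : HasProd (fun p => if p ∈ S then (pf a' b' (s + 1 / 2) p)⁻¹ else 1)
        (∏ p ∈ S, (pf a' b' (s + 1 / 2) p)⁻¹) := by
      have h4 : HasProd (fun p => if p ∈ S then (pf a' b' (s + 1 / 2) p)⁻¹ else 1)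
          (∏ p ∈ S, if p ∈ S then (pf a' b' (s + 1 / 2) p)⁻¹ else 1) :=
        hasProd_prod_of_ne_finset_one (fun p hp => if_neg hp)
      rwa [Finset.prod_congr rfl fun p hp => if_pos hp] at h4
    have h4 := h2.mul h3
    have h5 : F (s + 1 / 2) = LSeries (hL lam d) s * ∏ p ∈ S, (pf a' b' (s + 1 / 2) p)⁻¹ := by
      refine h1.unique ?_
      convert h4 using 1
      funext p
      by_cases hp : p.Prime
      swap
      · rw [if_neg (by tauto), lf, if_neg (by tauto), if_neg (fun h => hp (hSp p h)), one_mul]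
      have hpf : ∀ s, (1 - ((p : ℂ) - (Nat.card {q : ZMod p × ZMod p //
            q.2 ^ 2 = q.1 ^ 3 + (a' : ZMod p) * q.1 + (b' : ZMod p)} : ℂ))
            * (p : ℂ) ^ (-s) + (p : ℂ) ^ (1 - 2 * s))⁻¹ = (pf a' b' s p)⁻¹ := by
        intro s
        unfold pf ap
        push_cast
        rfl
      rw [hpf]
      by_cases hpQ : p ∣ Q
      · have e1 : lf Q lam d s p = 1 := by rw [lf, if_neg (by tauto)]
        rw [e1, one_mul]
        by_cases hpD : (p : ℤ) ∣ D'
        · rw [if_neg (by tauto), if_neg]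
          intro h
          exact (Finset.mem_filter.mp h).2 hpD
        · rw [if_pos ⟨hp, hpD⟩, if_pos]
          exact Finset.mem_filter.mpr ⟨Nat.mem_primeFactors.mpr ⟨hp, hpQ, H.pos.ne'⟩, hpD⟩
      · have hpS : p ∉ S := fun h => hpQ (Nat.dvd_of_mem_primeFactors (Finset.mem_filter.mp h).1)
        rw [if_neg hpS, mul_one]
        have hpΔ : ¬ (p : ℤ) ∣ 2 * (4 * a ^ 3 + 27 * b ^ 2) := fun h => hpQ (hQ p hp h)
        have hpi : Prime (p : ℤ) := Nat.prime_iff_prime_int.mp hp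
        have hp2 : p ≠ 2 := by
          rintro rfl
          exact hpΔ (dvd_mul_right _ _)
        have : Fact p.Prime := ⟨hp⟩
        by_cases hpd : (p : ℤ) ∣ d
        · have e1 : js d p = 0 := by
            rw [js_prime, (ZMod.intCast_zmod_eq_zero_iff_dvd d p).mpr hpd]
            simp
          rw [if_neg, lf, e1]
          · simp
          · rintro ⟨_, h⟩
            apply h
            rw [hDD]
            exact (dvd_pow hpd (by norm_num)).mul_left _
        · have hpD : ¬ (p : ℤ) ∣ D' := by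
            rw [hDD]
            intro h
            rcases hpi.dvd_or_dvd h with h | h
            · exact hpΔ ((dvd_neg).mp h)
            · exact hpd (hpi.dvd_of_dvd_pow h)
          rw [if_pos ⟨hp, hpD⟩, lf, if_pos ⟨hp, hpQ⟩]
          congr 1
          unfold pf
          have e1 : (js d p : ℂ) ^ 2 = 1 := by
            have hd0 : (d : ZMod p) ≠ 0 := by
              rwa [Ne, ZMod.intCast_zmod_eq_zero_iff_dvd]
            rw [js_prime]
            have e2 := quadraticChar_sq_one hd0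
            exact_mod_cast congrArg (fun z : ℤ => (z : ℂ)) e2
          have hp0 : (p : ℂ) ≠ 0 := by exact_mod_cast hp.ne_zero
          have e2 : (ap a' b' p : ℂ) = js d p * ap a b p := by
            exact_mod_cast congrArg (fun z : ℝ => (z : ℂ)) (ap_twist a b d p hp hp2 hpd)
          have e3 : (p : ℂ) ^ (-(s + 1 / 2)) = (p : ℂ) ^ (-s) * (Real.sqrt p : ℂ)⁻¹ := by
            rw [neg_add, Complex.cpow_add _ _ hp0, Complex.cpow_neg _ (1 / 2)]
            congr 2
            rw [Real.sqrt_eq_rpow, Complex.ofReal_cpow (by positivity)]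
            push_cast
            rfl
          have e4 : (p : ℂ) ^ (1 - 2 * (s + 1 / 2)) = ((p : ℂ) ^ (-s)) ^ 2 := by
            rw [← Complex.cpow_nat_mul]
            congr 1
            push_cast
            ring
          rw [e2, e3, e4, hlam p hp hpQ, mul_pow, e1]
          push_cast
          ring
    rw [h5, mul_assoc, ← Finset.prod_mul_distrib, Finset.prod_eq_one, mul_one]
    intro p hp
    refine inv_mul_cancel₀ (pf_big a' b' (hSp p hp) _ ?_)
    have : (s + 1 / 2).re = s.re + 1 / 2 := by simp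
    rw [this]; linarith
  -- the series of `e`, `e'`
  have sE : ∀ s : ℂ, 1 / 4 ≤ s.re → LSeriesSummable (fun n => (T.e d n : ℂ)) s := fun s hs =>
    (hE_bound _ _ (T.e_sum d hd) s hs).1
  have sE' : ∀ s : ℂ, 1 / 4 ≤ s.re → LSeriesSummable (fun n => (T.e' d n : ℂ)) s := fun s hs =>
    (hE_bound _ _ (T.e'_sum d hd) s hs).1
  have hEE : ∀ s : ℂ, 1 / 4 ≤ s.re →
      LSeries (fun n => (T.e d n : ℂ)) s * LSeries (fun n => (T.e' d n : ℂ)) s = 1 := by
    intro s hs
    rw [← LSeries_convolution' (sE s hs) (sE' s hs)]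
    have h5 : LSeries (LSeries.convolution (fun n => (T.e d n : ℂ)) (fun n => (T.e' d n : ℂ))) s =
        LSeries LSeries.delta s := by
      apply LSeries_congr
      intro n hn
      rw [LSeries.convolution_def]
      show ∑ p ∈ n.divisorsAntidiagonal, (T.e d p.1 : ℂ) * (T.e' d p.2 : ℂ) = LSeries.delta n
      have h6 := T.e_inv d hd n (Nat.one_le_iff_ne_zero.mpr hn)
      have h7 : ((∑ x ∈ n.divisorsAntidiagonal, T.e d x.1 * T.e' d x.2 : ℝ) : ℂ) =
          ((if n = 1 then 1 else 0 : ℝ) : ℂ) := by rw [h6]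
      rw [ofReal_sum] at h7
      simp only [ofReal_mul] at h7
      rw [h7, LSeries.delta]
      split_ifs <;> simp
    rw [h5, LSeries_delta]
    rfl
  have hell2 : ∀ s : ℂ, 2 < s.re →
      T.ell d s = LSeries (fun n => (T.e d n : ℂ)) s * LSeries (hL lam d) s := by
    intro s hs
    have c3 : (fun n : ℕ => (T.cf d n : ℂ)) =
        LSeries.convolution (fun n => (T.e d n : ℂ)) (hL lam d) := by
      rw [LSeries.convolution_def]
      funext n
      unfold Twists.cf hL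
      push_cast
      rfl
    rw [hes s hs, tsum_eq_ls (fun n => (T.cf d n : ℂ)) (by simp [Twists.cf]) s, c3,
      LSeries_convolution' (sE s (by linarith)) (hL_summable H d s hs)]
  -- two analytic functions on a half plane
  set U : Set ℂ := {s | 1 / 4 < s.re} with hU
  have hUo : IsOpen U := isOpen_lt continuous_const Complex.continuous_re
  have hUc : IsPreconnected U := (convex_halfSpace_re_gt (1 / 4)).isPreconnected
  have hdE' : DifferentiableOn ℂ (LSeries (fun n => (T.e' d n : ℂ))) U :=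
    ls_diff _ (1 / 4) fun y hy => sE' (y : ℂ) (by rw [ofReal_re]; exact hy.le)
  have hA1 : AnalyticOnNhd ℂ (LSeries (fun n => (T.e' d n : ℂ))) U :=
    hdE'.analyticOnNhd hUo
  have hA2 : AnalyticOnNhd ℂ (T.ell d) U := hed.differentiableOn.analyticOnNhd hUo
  have hd3 : Differentiable ℂ (fun s => F (s + 1 / 2)) := hFd.comp (differentiable_id.add_const _)
  have hA3 : AnalyticOnNhd ℂ (fun s => F (s + 1 / 2)) U := hd3.differentiableOn.analyticOnNhd hUo
  have hd4 : Differentiable ℂ (fun s => ∏ p ∈ S, pf a' b' (s + 1 / 2) p) := by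
    apply Differentiable.fun_finsetProd
    intro p hp
    exact (pf_diff a' b' (hSp p hp)).comp (differentiable_id.add_const _)
  have hA4 : AnalyticOnNhd ℂ (fun s => ∏ p ∈ S, pf a' b' (s + 1 / 2) p) U :=
    hd4.differentiableOn.analyticOnNhd hUo
  have hV : ∀ s ∈ {s : ℂ | 10 < s.re}, (LSeries (fun n => (T.e' d n : ℂ)) * T.ell d) s =
      ((fun s => F (s + 1 / 2)) * fun s => ∏ p ∈ S, pf a' b' (s + 1 / 2) p) s := by
    intro s hs
    have hs' : 10 < s.re := hs
    show LSeries (fun n => (T.e' d n : ℂ)) s * T.ell d s = F (s + 1 / 2) *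
      ∏ p ∈ S, pf a' b' (s + 1 / 2) p
    rw [key s hs', hell2 s (by linarith), ← mul_assoc, mul_comm (LSeries _ s) (LSeries _ s),
      hEE s (by linarith), one_mul]
  have hVo : IsOpen {s : ℂ | 10 < s.re} := isOpen_lt continuous_const Complex.continuous_re
  have h20 : (20 : ℂ) ∈ U := by
    show 1 / 4 < (20 : ℂ).re
    norm_num
  have hEq : Set.EqOn (LSeries (fun n => (T.e' d n : ℂ)) * T.ell d)
      ((fun s => F (s + 1 / 2)) * fun s => ∏ p ∈ S, pf a' b' (s + 1 / 2) p) U :=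
    (hA1.mul hA2).eqOn_of_preconnected_of_eventuallyEq (hA3.mul hA4) hUc h20
      (Filter.eventually_of_mem (hVo.mem_nhds (by
        show 10 < (20 : ℂ).re
        norm_num)) hV)
  have hhalf : (1 / 2 : ℂ) ∈ U := by
    show 1 / 4 < (1 / 2 : ℂ).re
    norm_num
  have hord := analyticOrderAt_congr (Filter.eventually_of_mem (hUo.mem_nhds hhalf) hEq)
  rw [analyticOrderAt_mul (hA1 _ hhalf) (hA2 _ hhalf),
    analyticOrderAt_mul (hA3 _ hhalf) (hA4 _ hhalf)] at hord
  have o1 : analyticOrderAt (LSeries (fun n => (T.e' d n : ℂ))) (1 / 2) = 0 := by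
    rw [(hA1 _ hhalf).analyticOrderAt_eq_zero]
    intro h
    have := hEE (1 / 2) (by norm_num)
    rw [h, mul_zero] at this
    exact one_ne_zero this.symm
  have o4 : analyticOrderAt (fun s => ∏ p ∈ S, pf a' b' (s + 1 / 2) p) (1 / 2 : ℂ) = 0 := by
    rw [(hA4 _ hhalf).analyticOrderAt_eq_zero]
    rw [Finset.prod_ne_zero_iff]
    intro p hp
    rw [show (1 / 2 : ℂ) + 1 / 2 = 1 by norm_num]
    exact pf_one a' b' (hSp p hp)
  have o3 : analyticOrderAt (fun s => F (s + 1 / 2)) (1 / 2 : ℂ) = analyticOrderAt F 1 := by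
    have h1 := analyticOrderAt_comp_of_deriv_ne_zero (f := F) (g := fun s : ℂ => s + 1 / 2)
      (z₀ := 1 / 2) (by fun_prop) (by simp)
    rw [show (1 / 2 : ℂ) + 1 / 2 = 1 by norm_num] at h1
    exact h1
  rw [o1, o4, o3, zero_add, add_zero] at hord
  exact hord.symm

end Pool.Agent.Y705.QT
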